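import Pool.Agent.H31.RegPoly

set_option autoImplicit false

namespace Pool.Agent.Results.MP_a3bfba_gt.Neg

open Pool.Agent.H31.RegPoly

theorem result : ∃ d : EuclideanSpace ℝ (Fin 4) → EuclideanSpace ℝ (Fin 4) → ℝ,
    (∀ x y, d x y = 0 ↔ x = y) ∧ (∀ x y, d x y = d y x) ∧ (∀ x y z, d x z ≤ d x y + d y z) ∧
    (∀ U, IsOpen U ↔ ∀ x ∈ U, ∃ ε > 0, ∀ y, d x y < ε → y ∈ U) ∧
    (∀ x y z, x ≠ y → y ≠ z → x ≠ z → (d x y + d y z = d x z ↔ y ∈ openSegment ℝ x z)) ∧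
    (∀ n : ℕ, 3 ≤ n → ∀ A B, A ≠ B → ∃ P : ZMod n → EuclideanSpace ℝ (Fin 4),
      Function.Injective P ∧ (∀ i j h, d (P i) (P j) = d (P (i + h)) (P (j + h))) ∧
      P 0 = A ∧ P 1 = B) ∧
    (∀ f : EuclideanSpace ℝ (Fin 4) → EuclideanSpace ℝ (Fin 4),
      ¬ ∀ x y, d x y = dist (f x) (f y)) ∧
    (∀ k : ℝ, 0 < k → ∀ f : EuclideanSpace ℝ (Fin 4) → EuclideanSpace ℝ (Fin 4),
      ¬ ∀ x y, d x y = Real.arcosh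
        (√(1 + ‖f x‖ ^ 2) * √(1 + ‖f y‖ ^ 2) - inner ℝ (f x) (f y)) / √k) :=
  ⟨d, d_zero, d_comm, d_tri, d_top, fun x y z h1 h2 _ => d_btw x y z h1 h2, poly, not_eucl,
    not_hyp⟩

end Pool.Agent.Results.MP_a3bfba_gt.Neg
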